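import Pool.Agent.Q179.Ray.Defs

/-!
# Ray spaces: basic neighbourhoods
-/

open Set Topology

namespace Pool.Agent.Q179.Ray

universe u

variable {T : Type u} [PartialOrder T]

theorem chi_eq_true {x : RaySpace T} {t : T} : chi x t = true ↔ t ∈ x.1 := by
  classical
  simp [chi]

theorem chi_eq_false {x : RaySpace T} {t : T} : chi x t = false ↔ t ∉ x.1 := by
  classical
  simp [chi]

theorem continuous_chi : Continuous (chi : RaySpace T → T → Bool) := continuous_induced_dom

theorem isClopen_cone (t : T) : IsClopen {x : RaySpace T | t ∈ x.1} := by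
  have h : {x : RaySpace T | t ∈ x.1} = (fun x => chi x t) ⁻¹' {true} := by
    ext x
    exact chi_eq_true.symm
  rw [h]
  exact (isClopen_discrete {true}).preimage ((continuous_apply t).comp continuous_chi)

theorem isOpen_cone (t : T) : IsOpen {x : RaySpace T | t ∈ x.1} := (isClopen_cone t).isOpen

theorem isOpen_compl_cone (t : T) : IsOpen {x : RaySpace T | t ∉ x.1} :=
  (isClopen_cone t).compl.isOpen

/-- raw neighbourhoods -/
theorem exists_raw {O : Set (RaySpace T)} (hO : IsOpen O) {x : RaySpace T} (hx : x ∈ O) :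
    ∃ F : Finset T, ∀ y : RaySpace T, (∀ t ∈ F, (t ∈ y.1 ↔ t ∈ x.1)) → y ∈ O := by
  classical
  obtain ⟨V, hV, rfl⟩ := isOpen_induced_iff.1 hO
  rw [isOpen_pi_iff] at hV
  obtain ⟨I, u, hu, huV⟩ := hV (chi x) hx
  refine ⟨I, fun y hy => huV ?_⟩
  intro t ht
  have : chi y t = chi x t := by
    rw [Bool.eq_iff_iff, chi_eq_true, chi_eq_true]
    exact hy t ht
  rw [this]
  exact (hu t ht).2

theorem continuous_iff_cone {X : Type*} [TopologicalSpace X] {f : X → RaySpace T} :
    Continuous f ↔ ∀ t, IsClopen {x | t ∈ (f x).1} := by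
  constructor
  · intro h t
    exact (isClopen_cone t).preimage h
  · intro h
    refine continuous_induced_rng.2 (continuous_pi fun t => ?_)
    refine continuous_def.2 fun s _ => ?_
    have key : ∀ b : Bool, IsOpen {x | chi (f x) t = b} := by
      intro b
      cases b
      · have : {x | chi (f x) t = false} = {x | t ∈ (f x).1}ᶜ := by
          ext x
          exact chi_eq_false
        rw [this]
        exact (h t).compl.isOpen
      · have : {x | chi (f x) t = true} = {x | t ∈ (f x).1} := by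
          ext x
          exact chi_eq_true
        rw [this]
        exact (h t).isOpen
    have h2 : (fun x => chi (f x) t) ⁻¹' s = ⋃ b ∈ s, {x | chi (f x) t = b} := by
      ext x
      simp
    have h3 : IsOpen ((fun x => chi (f x) t) ⁻¹' s) := by
      rw [h2]
      exact isOpen_biUnion fun b _ => key b
    exact h3

/-- The tops of a ray. -/
def Top (x : Set T) : Set T := {q | Iio q = x}

/-- Basic neighbourhoods `U(x; t, E)`: the rays containing `t` and missing all of `E`. -/
def nb (t : T) (E : Finset T) : Set (RaySpace T) := {y | t ∈ y.1 ∧ ∀ e ∈ E, e ∉ y.1}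

theorem isOpen_nb (t : T) (E : Finset T) : IsOpen (nb t E) := by
  have : nb t E = {y : RaySpace T | t ∈ y.1} ∩ ⋂ e ∈ E, {y : RaySpace T | e ∉ y.1} := by
    ext y
    simp [nb]
  rw [this]
  exact (isOpen_cone t).inter (isOpen_biInter_finset fun e _ => isOpen_compl_cone e)

/-- Elements below a common element are comparable. -/
theorem IsOrderTree.comparable (hT : IsOrderTree T) {a b t : T} (ha : a ≤ t) (hb : b ≤ t) :
    a < b ∨ a = b ∨ b < a := by
  have := hT.wo t
  rcases trichotomous_of (α := Set.Iic t) (· < ·) ⟨a, ha⟩ ⟨b, hb⟩ with h | h | h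
  · exact Or.inl h
  · exact Or.inr (Or.inl (congrArg Subtype.val h))
  · exact Or.inr (Or.inr h)

theorem IsOrderTree.wf (hT : IsOrderTree T) : WellFounded ((· < ·) : T → T → Prop) := by
  rw [WellFounded.wellFounded_iff_has_min]
  rintro s ⟨t, ht⟩
  have hwf : WellFounded ((· < ·) : Set.Iic t → Set.Iic t → Prop) := (hT.wo t).wf
  obtain ⟨m, hm, hmin⟩ := WellFounded.wellFounded_iff_has_min.1 hwf
    {a : Set.Iic t | (a : T) ∈ s} ⟨⟨t, le_rfl⟩, ht⟩
  refine ⟨m, hm, fun x hx hxm => ?_⟩
  exact hmin ⟨x, hxm.le.trans m.2⟩ hx hxm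

theorem ray_comparable {x : Set T} (hx : IsRay x) {a b : T} (ha : a ∈ x) (hb : b ∈ x) :
    a < b ∨ a = b ∨ b < a := by
  by_cases h : a = b
  · exact Or.inr (Or.inl h)
  · rcases hx.1 ha hb h with h1 | h1
    · exact Or.inl (lt_of_le_of_ne h1 h)
    · exact Or.inr (Or.inr (lt_of_le_of_ne h1 (Ne.symm h)))

/-- The maximum of two elements of a ray. -/
theorem ray_exists_ge {x : Set T} (hx : IsRay x) {a b : T} (ha : a ∈ x) (hb : b ∈ x) :
    ∃ c ∈ x, a ≤ c ∧ b ≤ c := by
  rcases ray_comparable hx ha hb with h | h | h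
  · exact ⟨b, hb, h.le, le_rfl⟩
  · exact ⟨b, hb, h.le, le_rfl⟩
  · exact ⟨a, ha, le_rfl, h.le⟩

/-- For `q ∉ x`, either one element `t ∈ x` excludes `q` from every ray containing `t`, or some
`q' ≤ q` is a top of `x`. -/
theorem exclude (hT : IsOrderTree T) {x : Set T} (hx : IsRay x) {q : T} (hq : q ∉ x) :
    (∃ t ∈ x, ∀ y : Set T, IsRay y → t ∈ y → q ∉ y) ∨ ∃ q' ∈ Top x, q' ≤ q := by
  obtain ⟨q', hq', hmin⟩ := WellFounded.wellFounded_iff_has_min.1 hT.wf
    {a | a ≤ q ∧ a ∉ x} ⟨q, le_rfl, hq⟩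
  by_cases h : Iio q' = x
  · exact Or.inr ⟨q', h, hq'.1⟩
  · left
    have hsub : Iio q' ⊆ x := by
      intro a ha
      by_contra hax
      exact hmin a ⟨ha.le.trans hq'.1, hax⟩ ha
    obtain ⟨t, htx, htq⟩ : ∃ t ∈ x, t ∉ Iio q' := by
      by_contra hno
      push Not at hno
      exact h (Subset.antisymm hsub hno)
    refine ⟨t, htx, fun y hy hty hqy => ?_⟩
    have hq'y : q' ∈ y := hy.2.1 hq'.1 hqy
    rcases ray_comparable hy hty hq'y with h1 | h1 | h1
    · exact htq h1
    · exact hq'.2 (h1 ▸ htx)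
    · exact hq'.2 (hx.2.1 h1.le htx)

/-- Basic neighbourhoods form a neighbourhood base at nonempty rays. -/
theorem exists_nb (hT : IsOrderTree T) {O : Set (RaySpace T)} (hO : IsOpen O) {x : RaySpace T}
    (hx : x ∈ O) (hne : x.1.Nonempty) :
    ∃ t ∈ x.1, ∃ E : Finset T, (∀ e ∈ E, e ∈ Top x.1) ∧ nb t E ⊆ O := by
  classical
  obtain ⟨F, hF⟩ := exists_raw hO hx
  -- handle the finite set `F`
  have key : ∀ F : Finset T, ∃ t ∈ x.1, ∃ E : Finset T, (∀ e ∈ E, e ∈ Top x.1) ∧
      ∀ y ∈ nb t E, ∀ s ∈ F, (s ∈ (y : RaySpace T).1 ↔ s ∈ x.1) := by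
    intro F
    induction F using Finset.induction_on with
    | empty =>
      obtain ⟨t, ht⟩ := hne
      exact ⟨t, ht, ∅, by simp, by simp⟩
    | insert q F _ ih =>
      obtain ⟨t, ht, E, hE, h⟩ := ih
      by_cases hq : q ∈ x.1
      · obtain ⟨c, hc, htc, hqc⟩ := ray_exists_ge x.2 ht hq
        refine ⟨c, hc, E, hE, fun y hy s hs => ?_⟩
        have hty : y ∈ nb t E := ⟨y.2.2.1 htc hy.1, hy.2⟩
        rcases Finset.mem_insert.1 hs with rfl | hs
        · exact ⟨fun _ => hq, fun _ => y.2.2.1 hqc hy.1⟩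
        · exact h y hty s hs
      · rcases exclude hT x.2 hq with ⟨t', ht', hexc⟩ | ⟨q', hq', hq'q⟩
        · obtain ⟨c, hc, htc, htc'⟩ := ray_exists_ge x.2 ht ht'
          refine ⟨c, hc, E, hE, fun y hy s hs => ?_⟩
          have hty : y ∈ nb t E := ⟨y.2.2.1 htc hy.1, hy.2⟩
          rcases Finset.mem_insert.1 hs with rfl | hs
          · exact ⟨fun h' => absurd h' (hexc y.1 y.2 (y.2.2.1 htc' hy.1)), fun h' => absurd h' hq⟩
          · exact h y hty s hs
        · refine ⟨t, ht, insert q' E, ?_, fun y hy s hs => ?_⟩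
          · intro e he
            rcases Finset.mem_insert.1 he with rfl | he
            · exact hq'
            · exact hE e he
          · have hty : y ∈ nb t E := ⟨hy.1, fun e he => hy.2 e (Finset.mem_insert_of_mem he)⟩
            rcases Finset.mem_insert.1 hs with rfl | hs
            · refine ⟨fun h' => absurd (y.2.2.1 hq'q h') (hy.2 q' (Finset.mem_insert_self _ _)),
                fun h' => absurd h' hq⟩
            · exact h y hty s hs
  obtain ⟨t, ht, E, hE, h⟩ := key F
  exact ⟨t, ht, E, hE, fun y hy => hF y (h y hy)⟩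

theorem raySpace_ext {x y : RaySpace T} (h : ∀ t, t ∈ x.1 ↔ t ∈ y.1) : x = y :=
  Subtype.ext (Set.ext h)

instance : T2Space (RaySpace T) := by
  refine ⟨fun x y hxy => ?_⟩
  have : ∃ t, ¬ (t ∈ x.1 ↔ t ∈ y.1) := by
    by_contra h
    push Not at h
    exact hxy (raySpace_ext h)
  obtain ⟨t, ht⟩ := this
  by_cases h : t ∈ x.1
  · have h' : t ∉ y.1 := fun h' => ht ⟨fun _ => h', fun _ => h⟩
    exact ⟨_, _, isOpen_cone t, isOpen_compl_cone t, h, h',
      Set.disjoint_left.2 fun z hz hz' => hz' hz⟩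
  · have h' : t ∈ y.1 := by
      by_contra h'
      exact ht ⟨fun h1 => absurd h1 h, fun h1 => absurd h1 h'⟩
    exact ⟨_, _, isOpen_compl_cone t, isOpen_cone t, h, h',
      Set.disjoint_left.2 fun z hz hz' => hz hz'⟩

end Pool.Agent.Q179.Ray
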