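import Mathlib

/-!
# Order trees and their ray spaces: definitions
-/

namespace Pool.Agent.Q179.Ray

universe u

/-- An order tree: a partially ordered set with a least element (the root) in which every set
`{s | s ≤ t}` is well-ordered. -/
structure IsOrderTree (T : Type u) [PartialOrder T] : Prop where
  root : ∃ r : T, ∀ t, r ≤ t
  wo : ∀ t : T, IsWellOrder (Set.Iic t) (· < ·)

/-- A ray: a downward closed chain without a maximal element. -/
def IsRay {T : Type u} [PartialOrder T] (R : Set T) : Prop :=
  IsChain (· ≤ ·) R ∧ IsLowerSet R ∧ ∀ s ∈ R, ∃ t ∈ R, s < t

/-- The underlying set of the ray space of `T`: all rays of `T`. -/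
def RaySpace (T : Type u) [PartialOrder T] : Type u := {R : Set T // IsRay R}

open Classical in
/-- The characteristic function of a ray, a point of the Cantor cube `2 ^ T`. -/
noncomputable def chi {T : Type u} [PartialOrder T] (R : RaySpace T) : T → Bool :=
  fun t => decide (t ∈ R.1)

/-- The ray space carries the subspace topology of the Cantor cube `2 ^ T` (product
topology). -/
noncomputable instance (T : Type u) [PartialOrder T] : TopologicalSpace (RaySpace T) :=
  TopologicalSpace.induced chi Pi.topologicalSpace

/-- `T` is special: a union of countably many antichains. -/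
def Special (T : Type u) [PartialOrder T] : Prop :=
  ∃ A : ℕ → Set T, (∀ n, IsAntichain (· ≤ ·) (A n)) ∧ ∀ t, ∃ n, t ∈ A n

end Pool.Agent.Q179.Ray
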