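import Pool.Agent.Q179.Ray.QuasiDefs
import Pool.Agent.Q179.Ray.Basic

/-!
# Quasi-ray spaces: cone systems, attaching trees on top of a path
-/

open Set Topology

namespace Pool.Agent.Q179.Ray

universe u

/-- Constructor for order trees. -/
theorem IsOrderTree.of_wf {T : Type u} [PartialOrder T] (h1 : ∃ r : T, ∀ t, r ≤ t)
    (h2 : ∀ a b t : T, a ≤ t → b ≤ t → a ≤ b ∨ b ≤ a)
    (h3 : WellFounded ((· < ·) : T → T → Prop)) : IsOrderTree T := by
  refine ⟨h1, fun t => ?_⟩
  have hwf : WellFounded ((· < ·) : Set.Iic t → Set.Iic t → Prop) :=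
    InvImage.wf (fun a : Set.Iic t => (a : T)) h3
  have htri : Std.Trichotomous ((· < ·) : Set.Iic t → Set.Iic t → Prop) := by
    refine ⟨fun a b hab hba => ?_⟩
    rcases h2 a.1 b.1 t a.2 b.2 with h | h
    · rcases h.eq_or_lt with h' | h'
      · exact Subtype.ext h'
      · exact absurd h' hab
    · rcases h.eq_or_lt with h' | h'
      · exact Subtype.ext h'.symm
      · exact absurd h' hba
  exact { htri with wf := hwf }

section cones

variable {X : Type u} [TopologicalSpace X]

/-- A cone system: clopen sets `C t` such that the sets `{t | x ∈ C t}` are exactly the nonempty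
rays of `T`, each obtained from exactly one `x`. -/
structure Cones {X : Type u} [TopologicalSpace X] {T : Type u} [PartialOrder T]
    (C : T → Set X) : Prop where
  clopen : ∀ t, IsClopen (C t)
  ray : ∀ x, IsRay {t | x ∈ C t}
  ne : ∀ x, {t | x ∈ C t}.Nonempty
  inj : ∀ x y, (∀ t, x ∈ C t ↔ y ∈ C t) → x = y
  surj : ∀ R : Set T, IsRay R → R.Nonempty → ∃ x, ∀ t, x ∈ C t ↔ t ∈ R

theorem continuous_iff_cone' {T : Type u} [PartialOrder T] {X : Type*} [TopologicalSpace X]
    {f : X → NERaySpace T} : Continuous f ↔ ∀ t, IsClopen {x | t ∈ (f x).1.1} := by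
  rw [continuous_induced_rng]
  exact continuous_iff_cone

theorem Cones.exists_map {T : Type u} [PartialOrder T] {C : T → Set X} (hC : Cones C) :
    ∃ f : X → NERaySpace T, Continuous f ∧ Function.Bijective f ∧
      ∀ x t, t ∈ (f x).1.1 ↔ x ∈ C t := by
  let f : X → NERaySpace T := fun x => ⟨⟨{t | x ∈ C t}, hC.ray x⟩, hC.ne x⟩
  have hf : ∀ x t, t ∈ (f x).1.1 ↔ x ∈ C t := fun x t => Iff.rfl
  refine ⟨f, ?_, ⟨?_, ?_⟩, hf⟩
  · rw [continuous_iff_cone']
    intro t
    exact hC.clopen t
  · intro x y hxy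
    refine hC.inj x y fun t => ?_
    rw [← hf, ← hf, hxy]
  · rintro ⟨⟨R, hR⟩, hne⟩
    obtain ⟨x, hx⟩ := hC.surj R hR hne
    refine ⟨x, ?_⟩
    apply Subtype.ext
    apply Subtype.ext
    ext t
    exact hx t

theorem Cones.quasiRay {T : Type u} [PartialOrder T] (hT : IsOrderTree T) {C : T → Set X}
    (hC : Cones C) : QuasiRay X := by
  obtain ⟨f, hf, hb, -⟩ := hC.exists_map
  exact ⟨T, _, hT, f, hf, hb⟩

theorem QuasiRay.exists_cones (h : QuasiRay X) : ∃ (T : Type u) (_ : PartialOrder T),
    IsOrderTree T ∧ ∃ C : T → Set X, Cones C := by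
  obtain ⟨T, po, hT, f, hf, hb⟩ := h
  refine ⟨T, po, hT, fun t => {x | t ∈ (f x).1.1}, ?_, ?_, ?_, ?_, ?_⟩
  · exact continuous_iff_cone'.1 hf
  · intro x
    exact (f x).1.2
  · intro x
    exact (f x).2
  · intro x y hxy
    apply hb.1
    apply Subtype.ext
    apply Subtype.ext
    ext t
    exact hxy t
  · intro R hR hne
    obtain ⟨x, hx⟩ := hb.2 ⟨⟨R, hR⟩, hne⟩
    refine ⟨x, fun t => ?_⟩
    change t ∈ (f x).1.1 ↔ t ∈ R
    rw [hx]

theorem QuasiRay.of_bij {Y : Type u} [TopologicalSpace Y] {f : X → Y} (hf : Continuous f)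
    (hb : Function.Bijective f) (h : QuasiRay Y) : QuasiRay X := by
  obtain ⟨T, po, hT, g, hg, hgb⟩ := h
  exact ⟨T, po, hT, g ∘ f, hg.comp hf, hgb.comp hb⟩

end cones

/-! ### Attaching trees on top of a path -/

/-- The underlying set: `T₁` and trees `S j`. -/
inductive Att (T₁ : Type u) {J : Type u} (S : J → Type u) : Type u
  | base (a : T₁) : Att T₁ S
  | up (j : J) (b : S j) : Att T₁ S

/-- The order: all the `S j` are put on top of the path `P`. -/
inductive Att.Le {T₁ : Type u} [PartialOrder T₁] {J : Type u} {S : J → Type u}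
    [∀ j, PartialOrder (S j)] (P : Set T₁) : Att T₁ S → Att T₁ S → Prop
  | bb {a b : T₁} : a ≤ b → Att.Le P (Att.base a) (Att.base b)
  | bu {a : T₁} {j : J} {b : S j} : a ∈ P → Att.Le P (Att.base a) (Att.up j b)
  | uu {j : J} {b c : S j} : b ≤ c → Att.Le P (Att.up j b) (Att.up j c)

/-- The partial order on `Att T₁ S`. -/
@[reducible] def attOrder {T₁ : Type u} [PartialOrder T₁] {J : Type u} {S : J → Type u}
    [∀ j, PartialOrder (S j)] {P : Set T₁} (hP : IsLowerSet P) : PartialOrder (Att T₁ S) where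
  le := Att.Le P
  le_refl := by
    rintro (a | ⟨j, b⟩)
    · exact Att.Le.bb le_rfl
    · exact Att.Le.uu le_rfl
  le_trans := by
    rintro x y z h1 h2
    cases h1 with
    | bb h =>
      cases h2 with
      | bb h' => exact Att.Le.bb (h.trans h')
      | bu h' => exact Att.Le.bu (hP h h')
    | bu h =>
      cases h2 with
      | uu h' => exact Att.Le.bu h
    | uu h =>
      cases h2 with
      | uu h' => exact Att.Le.uu (h.trans h')
  le_antisymm := by
    rintro x y h1 h2
    cases h1 with
    | bb h =>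
      cases h2 with
      | bb h' => rw [le_antisymm h h']
    | bu h => cases h2
    | uu h =>
      cases h2 with
      | uu h' => rw [le_antisymm h h']

section attach

variable {T₁ : Type u} [PartialOrder T₁] {J : Type u} {S : J → Type u}
  [∀ j, PartialOrder (S j)] {P : Set T₁}

theorem Att.le_bb {a b : T₁} : Att.Le (S := S) P (Att.base a) (Att.base b) ↔ a ≤ b := by
  constructor
  · intro h
    cases h with
    | bb h => exact h
  · exact Att.Le.bb

theorem Att.le_bu {a : T₁} {j : J} {b : S j} : Att.Le P (Att.base a) (Att.up j b) ↔ a ∈ P := by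
  constructor
  · intro h
    cases h with
    | bu h => exact h
  · exact Att.Le.bu

theorem Att.le_ub {a : T₁} {j : J} {b : S j} : ¬ Att.Le P (Att.up j b) (Att.base a) := by
  intro h
  cases h

theorem Att.le_uu {j : J} {b c : S j} : Att.Le P (Att.up j b) (Att.up j c) ↔ b ≤ c := by
  constructor
  · intro h
    cases h with
    | uu h => exact h
  · exact Att.Le.uu

theorem att_tree (hT₁ : IsOrderTree T₁) (hPl : IsLowerSet P) (hPc : IsChain (· ≤ ·) P)
    (hPn : P.Nonempty) (hS : ∀ j, IsOrderTree (S j)) :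
    @IsOrderTree (Att T₁ S) (attOrder hPl) := by
  let po : PartialOrder (Att T₁ S) := attOrder hPl
  obtain ⟨r, hr⟩ := hT₁.root
  obtain ⟨p, hp⟩ := hPn
  have hrP : r ∈ P := hPl (hr p) hp
  refine IsOrderTree.of_wf ⟨Att.base r, ?_⟩ ?_ ?_
  · rintro (a | ⟨j, b⟩)
    · exact Att.Le.bb (hr a)
    · exact Att.Le.bu hrP
  · intro x y t hx hy
    change Att.Le P x t at hx
    change Att.Le P y t at hy
    change Att.Le P x y ∨ Att.Le P y x
    cases hx with
    | bb h =>
      cases hy with
      | bb h' =>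
        rcases hT₁.comparable h h' with h1 | h1 | h1
        · exact Or.inl (Att.Le.bb h1.le)
        · exact Or.inl (Att.Le.bb h1.le)
        · exact Or.inr (Att.Le.bb h1.le)
    | bu h =>
      cases hy with
      | bu h' =>
        rcases hPc.total h h' with h1 | h1
        · exact Or.inl (Att.Le.bb h1)
        · exact Or.inr (Att.Le.bb h1)
      | uu h' => exact Or.inl (Att.Le.bu h)
    | uu h =>
      cases hy with
      | bu h' => exact Or.inr (Att.Le.bu h')
      | uu h' =>
        rcases (hS _).comparable h h' with h1 | h1 | h1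
        · exact Or.inl (Att.Le.uu h1.le)
        · exact Or.inl (Att.Le.uu h1.le)
        · exact Or.inr (Att.Le.uu h1.le)
  · have hlt : ∀ x y : Att T₁ S, x < y ↔ Att.Le P x y ∧ ¬ Att.Le P y x := fun x y => Iff.rfl
    have hbase : ∀ a : T₁, Acc ((· < ·) : Att T₁ S → Att T₁ S → Prop) (Att.base a) := by
      intro a
      induction a using hT₁.wf.induction with
      | _ a ih =>
        refine Acc.intro _ fun y hy => ?_
        obtain ⟨h1, h2⟩ := (hlt _ _).1 hy
        cases h1 with
        | bb h =>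
          refine ih _ (lt_of_le_of_ne h ?_)
          rintro rfl
          exact h2 (Att.Le.bb le_rfl)
    have hup : ∀ (j : J) (b : S j),
        Acc ((· < ·) : Att T₁ S → Att T₁ S → Prop) (Att.up j b) := by
      intro j b
      induction b using (hS j).wf.induction with
      | _ b ih =>
        refine Acc.intro _ fun y hy => ?_
        obtain ⟨h1, h2⟩ := (hlt _ _).1 hy
        cases h1 with
        | bu h => exact hbase _
        | uu h =>
          refine ih _ (lt_of_le_of_ne h ?_)
          rintro rfl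
          exact h2 (Att.Le.uu le_rfl)
    refine ⟨?_⟩
    rintro (a | ⟨j, b⟩)
    · exact hbase a
    · exact hup j b

end attach

/-- **Attaching.**  If the clopen pairwise disjoint sets `Y j` are quasi-ray spaces and the
remaining points correspond to the nonempty rays of a tree `T₁`, such that the points of the `Y j`
look from `T₁` like the path `P`, then the whole space is a quasi-ray space. -/
theorem attach {X : Type u} [TopologicalSpace X] {T₁ : Type u} [PartialOrder T₁]
    (hT₁ : IsOrderTree T₁) {P : Set T₁} (hPc : IsChain (· ≤ ·) P) (hPl : IsLowerSet P)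
    (hPn : P.Nonempty) {J : Type u} (Y : J → Set X) (hY : ∀ j, IsClopen (Y j))
    (hdisj : ∀ i j x, x ∈ Y i → x ∈ Y j → i = j) (hq : ∀ j, QuasiRay (Y j))
    (C : T₁ → Set X) (hC : ∀ t, IsClopen (C t))
    (hCP : ∀ j, ∀ x ∈ Y j, ∀ t, x ∈ C t ↔ t ∈ P)
    (hray : ∀ x, (∀ j, x ∉ Y j) → IsRay {t | x ∈ C t} ∧ {t | x ∈ C t}.Nonempty)
    (hinj : ∀ x y, (∀ j, x ∉ Y j) → (∀ j, y ∉ Y j) → (∀ t, x ∈ C t ↔ y ∈ C t) → x = y)
    (hsurj : ∀ R : Set T₁, IsRay R → R.Nonempty →
      ∃ x, (∀ j, x ∉ Y j) ∧ ∀ t, x ∈ C t ↔ t ∈ R) : QuasiRay X := by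
  classical
  have hq' := fun j => (hq j).exists_cones
  choose S poS hS D hD using hq'
  let po : PartialOrder (Att T₁ S) := attOrder hPl
  have hle : ∀ x y : Att T₁ S, x ≤ y ↔ Att.Le P x y := fun x y => Iff.rfl
  have hlt : ∀ x y : Att T₁ S, x < y ↔ Att.Le P x y ∧ ¬ Att.Le P y x := fun x y => Iff.rfl
  let E : Att T₁ S → Set X := fun t =>
    match t with
    | Att.base a => C a
    | Att.up j b => Subtype.val '' D j b
  have hEb : ∀ x a, x ∈ E (Att.base a) ↔ x ∈ C a := fun x a => Iff.rfl
  have hEu : ∀ x j b, x ∈ E (Att.up j b) ↔ ∃ h : x ∈ Y j, (⟨x, h⟩ : Y j) ∈ D j b := by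
    intro x j b
    constructor
    · rintro ⟨⟨y, hy⟩, h, rfl⟩
      exact ⟨hy, h⟩
    · rintro ⟨h, h'⟩
      exact ⟨⟨x, h⟩, h', rfl⟩
  refine Cones.quasiRay (att_tree hT₁ hPl hPc hPn hS) (C := E) ⟨?_, ?_, ?_, ?_, ?_⟩
  · rintro (a | ⟨j, b⟩)
    · exact hC a
    · refine ⟨?_, ?_⟩
      · exact (hY j).isClosed.isClosedEmbedding_subtypeVal.isClosedMap _ ((hD j).clopen b).isClosed
      · exact (hY j).isOpen.isOpenMap_subtype_val _ ((hD j).clopen b).isOpen
  · -- rays
    intro x
    by_cases hx : ∃ j, x ∈ Y j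
    · obtain ⟨j, hj⟩ := hx
      have hup : ∀ i b, x ∈ E (Att.up i b) → i = j := by
        intro i b h
        obtain ⟨h1, -⟩ := (hEu x i b).1 h
        exact hdisj i j x h1 hj
      refine ⟨?_, ?_, ?_⟩
      · rintro (a | ⟨i, b⟩) ha (a' | ⟨i', b'⟩) ha' _
        · have h1 := (hCP j x hj a).1 ((hEb x a).1 ha)
          have h2 := (hCP j x hj a').1 ((hEb x a').1 ha')
          rcases hPc.total h1 h2 with h | h
          · exact Or.inl (Att.Le.bb h)
          · exact Or.inr (Att.Le.bb h)
        · have h1 := (hCP j x hj a).1 ((hEb x a).1 ha)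
          exact Or.inl (Att.Le.bu h1)
        · have h2 := (hCP j x hj a').1 ((hEb x a').1 ha')
          exact Or.inr (Att.Le.bu h2)
        · have h1 := hup i b ha
          have h2 := hup i' b' ha'
          subst h1
          subst h2
          obtain ⟨h3, h3'⟩ := (hEu x i' b).1 ha
          obtain ⟨h4, h4'⟩ := (hEu x i' b').1 ha'
          rcases ((hD i').ray ⟨x, h3⟩).1.total (x := b) (y := b') h3' h4' with h | h
          · exact Or.inl (Att.Le.uu h)
          · exact Or.inr (Att.Le.uu h)
      · intro t s hst ht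
        have hst' : Att.Le P s t := hst
        cases hst' with
        | bb h =>
          have h1 := (hCP j x hj _).1 ((hEb x _).1 ht)
          exact (hCP j x hj _).2 (hPl h h1)
        | bu h => exact (hCP j x hj _).2 h
        | uu h =>
          obtain ⟨h3, h3'⟩ := (hEu x _ _).1 ht
          exact (hEu x _ _).2 ⟨h3, ((hD _).ray ⟨x, h3⟩).2.1 h h3'⟩
      · rintro (a | ⟨i, b⟩) ht
        · obtain ⟨b, hb⟩ := (hD j).ne ⟨x, hj⟩
          have h1 := (hCP j x hj a).1 ((hEb x a).1 ht)
          exact ⟨Att.up j b, (hEu x j b).2 ⟨hj, hb⟩, Att.Le.bu h1, Att.le_ub⟩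
        · obtain ⟨h3, h3'⟩ := (hEu x _ _).1 ht
          obtain ⟨c, hc, hbc⟩ := ((hD i).ray ⟨x, h3⟩).2.2 b h3'
          refine ⟨Att.up i c, (hEu x i c).2 ⟨h3, hc⟩, Att.Le.uu hbc.le, ?_⟩
          intro h
          exact absurd (Att.le_uu.1 h) (not_le_of_gt hbc)
    · have hx' : ∀ j, x ∉ Y j := fun j hj => hx ⟨j, hj⟩
      have hup : ∀ i b, x ∉ E (Att.up i b) := by
        intro i b h
        exact hx' i ((hEu x i b).1 h).1
      obtain ⟨⟨h1, h2, h3⟩, h4⟩ := hray x hx'
      refine ⟨?_, ?_, ?_⟩
      · rintro (a | ⟨i, b⟩) ha (a' | ⟨i', b'⟩) ha' _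
        · rcases h1.total (x := a) (y := a') ha ha' with h | h
          · exact Or.inl (Att.Le.bb h)
          · exact Or.inr (Att.Le.bb h)
        · exact absurd ha' (hup _ _)
        · exact absurd ha (hup _ _)
        · exact absurd ha (hup _ _)
      · intro t s hst ht
        have hst' : Att.Le P s t := hst
        cases hst' with
        | bb h => exact h2 h ht
        | bu h => exact absurd ht (hup _ _)
        | uu h => exact absurd ht (hup _ _)
      · rintro (a | ⟨i, b⟩) ht
        · obtain ⟨c, hc, hac⟩ := h3 a ht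
          refine ⟨Att.base c, hc, Att.Le.bb hac.le, ?_⟩
          intro h
          exact absurd (Att.le_bb.1 h) (not_le_of_gt hac)
        · exact absurd ht (hup _ _)
  · -- nonempty
    intro x
    by_cases hx : ∃ j, x ∈ Y j
    · obtain ⟨j, hj⟩ := hx
      obtain ⟨p, hp⟩ := hPn
      exact ⟨Att.base p, (hCP j x hj p).2 hp⟩
    · have hx' : ∀ j, x ∉ Y j := fun j hj => hx ⟨j, hj⟩
      obtain ⟨a, ha⟩ := (hray x hx').2
      exact ⟨Att.base a, ha⟩
  · -- injective
    intro x y hxy
    by_cases hx : ∃ j, x ∈ Y j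
    · obtain ⟨j, hj⟩ := hx
      obtain ⟨b, hb⟩ := (hD j).ne ⟨x, hj⟩
      obtain ⟨hy, -⟩ := (hEu y j b).1 ((hxy (Att.up j b)).1 ((hEu x j b).2 ⟨hj, hb⟩))
      have := (hD j).inj ⟨x, hj⟩ ⟨y, hy⟩ (by
        intro t
        constructor
        · intro ht
          exact ((hEu y j t).1 ((hxy (Att.up j t)).1 ((hEu x j t).2 ⟨hj, ht⟩))).2
        · intro ht
          exact ((hEu x j t).1 ((hxy (Att.up j t)).2 ((hEu y j t).2 ⟨hy, ht⟩))).2)
      exact congrArg Subtype.val this
    · have hx' : ∀ j, x ∉ Y j := fun j hj => hx ⟨j, hj⟩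
      have hy' : ∀ j, y ∉ Y j := by
        intro j hj
        obtain ⟨b, hb⟩ := (hD j).ne ⟨y, hj⟩
        obtain ⟨hy, -⟩ := (hEu x j b).1 ((hxy (Att.up j b)).2 ((hEu y j b).2 ⟨hj, hb⟩))
        exact hx' j hy
      exact hinj x y hx' hy' fun t => hxy (Att.base t)
  · -- surjective
    intro R hR hne
    by_cases hup : ∃ j b, Att.up j b ∈ R
    · obtain ⟨j, b, hb⟩ := hup
      let R' : Set (S j) := {c | Att.up j c ∈ R}
      have hR' : IsRay R' := by
        refine ⟨?_, ?_, ?_⟩
        · intro c hc c' hc' _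
          rcases hR.1.total (x := Att.up j c) (y := Att.up j c') hc hc' with h | h
          · exact Or.inl (Att.le_uu.1 h)
          · exact Or.inr (Att.le_uu.1 h)
        · intro c c' hcc hc
          exact hR.2.1 (show Att.up j c' ≤ Att.up j c from Att.Le.uu hcc) hc
        · intro c hc
          obtain ⟨d, hd, hcd⟩ := hR.2.2 _ hc
          obtain ⟨h1, h2⟩ := (hlt _ _).1 hcd
          cases h1 with
          | uu h =>
            refine ⟨_, hd, lt_of_le_of_ne h ?_⟩
            rintro rfl
            exact h2 (Att.Le.uu le_rfl)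
      obtain ⟨⟨x, hx⟩, hxR⟩ := (hD j).surj R' hR' ⟨b, hb⟩
      have hRb : ∀ a, Att.base a ∈ R ↔ a ∈ P := by
        intro a
        constructor
        · intro ha
          rcases hR.1.total (x := Att.base a) (y := Att.up j b) ha hb with h | h
          · exact Att.le_bu.1 h
          · exact absurd h Att.le_ub
        · intro ha
          exact hR.2.1 (show Att.base a ≤ Att.up j b from Att.Le.bu ha) hb
      refine ⟨x, ?_⟩
      rintro (a | ⟨i, c⟩)
      · rw [hRb, hEb]
        exact hCP j x hx a
      · rw [hEu]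
        constructor
        · rintro ⟨h, h'⟩
          have hij := hdisj i j x h hx
          subst hij
          exact (hxR c).1 h'
        · intro hc
          have hij : i = j := by
            rcases hR.1.total (x := Att.up i c) (y := Att.up j b) hc hb with h | h
            · have h' : Att.Le P (Att.up i c) (Att.up j b) := h
              cases h' with
              | uu _ => rfl
            · have h' : Att.Le P (Att.up j b) (Att.up i c) := h
              cases h' with
              | uu _ => rfl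
          subst hij
          exact ⟨hx, (hxR c).2 hc⟩
    · have hno : ∀ j b, Att.up j b ∉ R := fun j b h => hup ⟨j, b, h⟩
      let R' : Set T₁ := {a | Att.base a ∈ R}
      have hR' : IsRay R' := by
        refine ⟨?_, ?_, ?_⟩
        · intro c hc c' hc' _
          rcases hR.1.total (x := Att.base c) (y := Att.base c') hc hc' with h | h
          · exact Or.inl (Att.le_bb.1 h)
          · exact Or.inr (Att.le_bb.1 h)
        · intro c c' hcc hc
          exact hR.2.1 (show (Att.base c' : Att T₁ S) ≤ Att.base c from Att.Le.bb hcc) hc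
        · intro c hc
          obtain ⟨d, hd, hcd⟩ := hR.2.2 _ hc
          obtain ⟨h1, h2⟩ := (hlt _ _).1 hcd
          cases h1 with
          | bb h =>
            refine ⟨_, hd, lt_of_le_of_ne h ?_⟩
            rintro rfl
            exact h2 (Att.Le.bb le_rfl)
          | bu h => exact absurd hd (hno _ _)
      have hne' : R'.Nonempty := by
        obtain ⟨t, ht⟩ := hne
        cases t with
        | base a => exact ⟨a, ht⟩
        | up j b => exact absurd ht (hno j b)
      obtain ⟨x, hx, hxR⟩ := hsurj R' hR' hne'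
      refine ⟨x, ?_⟩
      rintro (a | ⟨i, c⟩)
      · exact hxR a
      · rw [hEu]
        constructor
        · rintro ⟨h, -⟩
          exact absurd h (hx i)
        · intro h
          exact absurd h (hno i c)

/-- Topological sums of quasi-ray spaces. -/
theorem quasiRay_sum {X : Type u} [TopologicalSpace X] {J : Type u} (Y : J → Set X)
    (hY : ∀ j, IsOpen (Y j)) (hdisj : ∀ i j x, x ∈ Y i → x ∈ Y j → i = j)
    (hcov : ∀ x, ∃ j, x ∈ Y j) (hq : ∀ j, QuasiRay (Y j)) : QuasiRay X := by
  have hclopen : ∀ j, IsClopen (Y j) := by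
    intro j
    refine ⟨?_, hY j⟩
    have : Y j = (⋃ i ∈ {i | i ≠ j}, Y i)ᶜ := by
      ext x
      simp only [mem_compl_iff, mem_iUnion, not_exists]
      constructor
      · intro hx i hi hxi
        exact hi (hdisj i j x hxi hx)
      · intro h
        obtain ⟨i, hi⟩ := hcov x
        by_cases hij : i = j
        · exact hij ▸ hi
        · exact absurd hi (h i hij)
    rw [this]
    exact (isOpen_biUnion fun i _ => hY i).isClosed_compl
  have hT₁ : IsOrderTree PUnit.{u + 1} := by
    refine IsOrderTree.of_wf ⟨PUnit.unit, fun _ => le_rfl⟩ (fun _ _ _ _ _ => Or.inl le_rfl) ?_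
    refine ⟨fun a => Acc.intro _ fun y hy => absurd hy (lt_irrefl _)⟩
  refine attach hT₁ (P := univ) ?_ ?_ ⟨PUnit.unit, mem_univ _⟩ Y hclopen hdisj hq
    (fun _ => univ) (fun _ => isClopen_univ) ?_ ?_ ?_ ?_
  · intro a _ b _ hab
    exact absurd (Subsingleton.elim a b) hab
  · exact isLowerSet_univ
  · intro j x _ t
    exact ⟨fun _ => mem_univ _, fun _ => mem_univ _⟩
  · intro x hx
    obtain ⟨j, hj⟩ := hcov x
    exact absurd hj (hx j)
  · intro x y hx
    obtain ⟨j, hj⟩ := hcov x
    exact absurd hj (hx j)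
  · rintro R hR ⟨t, ht⟩
    obtain ⟨s, hs, hts⟩ := hR.2.2 t ht
    exact absurd hts (by rw [Subsingleton.elim s t]; exact lt_irrefl _)

end Pool.Agent.Q179.Ray
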