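import Pool.Agent.Q179.Ray.Defs

/-!
# Nonempty rays and quasi-ray spaces: definitions
-/

namespace Pool.Agent.Q179.Ray

universe u

/-- The space of all nonempty rays of `T`, a subspace of `2 ^ T`. -/
abbrev NERaySpace (T : Type u) [PartialOrder T] : Type u := {R : RaySpace T // R.1.Nonempty}

/-- `X` is a quasi-ray space: there are an order tree `T` and a continuous bijection of `X` onto
the space of nonempty rays of `T`. -/
def QuasiRay (X : Type u) [TopologicalSpace X] : Prop :=
  ∃ (T : Type u) (_ : PartialOrder T), IsOrderTree T ∧
    ∃ f : X → NERaySpace T, Continuous f ∧ Function.Bijective f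

end Pool.Agent.Q179.Ray
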