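import Pool.Agent.Q179.Ray.Quasi

/-!
# Open subspaces of ray spaces are quasi-ray spaces
-/

open Set Topology

namespace Pool.Agent.Q179.Ray

universe u

variable {T : Type u} [PartialOrder T]

theorem isOpen_ne_cone (t : T) : IsOpen {x : NERaySpace T | t ∈ x.1.1} :=
  (isOpen_cone t).preimage continuous_subtype_val

theorem isClopen_ne_cone (t : T) : IsClopen {x : NERaySpace T | t ∈ x.1.1} :=
  (isClopen_cone t).preimage continuous_subtype_val

theorem ne_ext {x y : NERaySpace T} (h : ∀ t, t ∈ x.1.1 ↔ t ∈ y.1.1) : x = y :=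
  Subtype.ext (Subtype.ext (Set.ext h))

/-- The rays through `s` whose part above `s` lies in `S`. -/
def window (s : T) (S : Set T) : Set (NERaySpace T) :=
  {x | s ∈ x.1.1 ∧ ∀ u ∈ x.1.1, s ≤ u → u ∈ S}

/-- Downward closure of a ray of a convex piece. -/
theorem down_ray (hT : IsOrderTree T) {s : T} {S : Set T} (hS : ∀ u ∈ S, s ≤ u)
    (hconv : ∀ u ∈ S, ∀ v, s ≤ v → v ≤ u → v ∈ S) {R : Set S} (hR : IsRay R)
    (hne : R.Nonempty) :
    ∃ x : NERaySpace T, x ∈ window s S ∧ ∀ u : S, u.1 ∈ x.1.1 ↔ u ∈ R := by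
  have h1 : ∀ u : S, (∃ v ∈ R, u.1 ≤ v.1) ↔ u ∈ R := by
    intro u
    constructor
    · rintro ⟨v, hv, huv⟩
      exact hR.2.1 huv hv
    · intro hu
      exact ⟨u, hu, le_rfl⟩
  obtain ⟨u0, hu0⟩ := hne
  refine ⟨⟨⟨{t | ∃ v ∈ R, t ≤ v.1}, ?_, ?_, ?_⟩, ⟨u0, u0, hu0, le_rfl⟩⟩, ?_, fun u => h1 u⟩
  · rintro a ⟨v, hv, hav⟩ b ⟨w, hw, hbw⟩ _
    have key : ∀ z : T, a ≤ z → b ≤ z → a ≤ b ∨ b ≤ a := by
      intro z ha hb
      rcases hT.comparable ha hb with h | h | h
      · exact Or.inl h.le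
      · exact Or.inl h.le
      · exact Or.inr h.le
    rcases hR.1.total hv hw with h | h
    · exact key w.1 (hav.trans h) hbw
    · exact key v.1 hav (hbw.trans h)
  · rintro a b hba ⟨v, hv, hav⟩
    exact ⟨v, hv, hba.trans hav⟩
  · rintro a ⟨v, hv, hav⟩
    obtain ⟨w, hw, hvw⟩ := hR.2.2 v hv
    exact ⟨w.1, ⟨w, hw, le_rfl⟩, lt_of_le_of_lt hav hvw⟩
  · refine ⟨⟨u0, hu0, hS _ u0.2⟩, ?_⟩
    rintro u ⟨v, _, huv⟩ hsu
    exact hconv v.1 v.2 u hsu huv

theorem piece_tree (hT : IsOrderTree T) {s : T} {S : Set T} (hs : s ∈ S)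
    (hS : ∀ u ∈ S, s ≤ u) : IsOrderTree S := by
  refine IsOrderTree.of_wf ⟨⟨s, hs⟩, fun t => hS t.1 t.2⟩ ?_ ?_
  · intro a b t ha hb
    rcases hT.comparable (a := a.1) (b := b.1) (t := t.1) ha hb with h | h | h
    · exact Or.inl h.le
    · exact Or.inl h.le
    · exact Or.inr h.le
  · exact InvImage.wf (fun a : S => (a : T)) hT.wf

/-- The trace of a ray through `s` on the part above `s`. -/
theorem trace_ray {s : T} {S : Set T} {x : NERaySpace T} (hx : x ∈ window s S)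
    (hS : ∀ u ∈ S, s ≤ u) : IsRay {u : S | u.1 ∈ x.1.1} := by
  refine ⟨?_, ?_, ?_⟩
  · intro a ha b hb _
    exact x.1.2.1.total ha hb
  · intro a b hba ha
    exact x.1.2.2.1 hba ha
  · intro a ha
    obtain ⟨t, ht, hat⟩ := x.1.2.2.2 a.1 ha
    exact ⟨⟨t, hx.2 t ht ((hS a.1 a.2).trans hat.le)⟩, ht, hat⟩

theorem window_inj {s : T} {S : Set T} {x y : NERaySpace T} (hx : x ∈ window s S)
    (hy : y ∈ window s S) (h : ∀ u : S, u.1 ∈ x.1.1 ↔ u.1 ∈ y.1.1) : x = y := by
  have key : ∀ x y : NERaySpace T, x ∈ window s S → y ∈ window s S →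
      (∀ u : S, u.1 ∈ x.1.1 ↔ u.1 ∈ y.1.1) → ∀ t, t ∈ x.1.1 → t ∈ y.1.1 := by
    intro x y hx hy h t ht
    rcases x.1.2.1.total ht hx.1 with h1 | h1
    · exact y.1.2.2.1 h1 hy.1
    · exact (h ⟨t, hx.2 t ht h1⟩).1 ht
  exact ne_ext fun t => ⟨key x y hx hy h t, key y x hy hx (fun u => (h u).symm) t⟩

theorem window_cones (hT : IsOrderTree T) {s : T} {S : Set T} (hs : s ∈ S)
    (hS : ∀ u ∈ S, s ≤ u) (hconv : ∀ u ∈ S, ∀ v, s ≤ v → v ≤ u → v ∈ S) :
    Cones (X := window s S) (T := S) fun u => {x | u.1 ∈ x.1.1.1} := by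
  refine ⟨?_, ?_, ?_, ?_, ?_⟩
  · intro t
    exact (isClopen_ne_cone t.1).preimage continuous_subtype_val
  · intro x
    exact trace_ray x.2 hS
  · intro x
    exact ⟨⟨s, hs⟩, x.2.1⟩
  · intro x y hxy
    exact Subtype.ext (window_inj x.2 y.2 hxy)
  · intro R hR hne
    obtain ⟨x, hx, hxR⟩ := down_ray hT hS hconv hR hne
    exact ⟨⟨x, hx⟩, hxR⟩

theorem window_quasi (hT : IsOrderTree T) {s : T} {S : Set T} (hs : s ∈ S)
    (hS : ∀ u ∈ S, s ≤ u) (hconv : ∀ u ∈ S, ∀ v, s ≤ v → v ≤ u → v ∈ S) :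
    QuasiRay (window s S) :=
  (window_cones hT hs hS hconv).quasiRay (piece_tree hT hs hS)

theorem QuasiRay.preimage {Z : Type u} [TopologicalSpace Z] {A W : Set Z} (hWA : W ⊆ A)
    (h : QuasiRay W) : QuasiRay (Subtype.val ⁻¹' W : Set A) := by
  refine QuasiRay.of_bij (f := fun z => (⟨z.1.1, z.2⟩ : W)) ?_ ⟨?_, ?_⟩ h
  · exact (continuous_subtype_val.comp continuous_subtype_val).subtype_mk _
  · intro a b hab
    have h1 : (⟨a.1.1, a.2⟩ : W) = ⟨b.1.1, b.2⟩ := hab
    have h2 : a.1.1 = b.1.1 := congrArg (fun w : W => w.1) h1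
    exact Subtype.ext (Subtype.ext h2)
  · rintro ⟨z, hz⟩
    exact ⟨⟨⟨z, hWA hz⟩, hz⟩, rfl⟩

/-- Pieces of the complement of a ray with a cofinal sequence. -/
theorem ladder_cover (hT : IsOrderTree T) {L : Set T} (hL : IsRay L) {x : ℕ → T}
    (hx : ∀ n, x n ∈ L) (hx0 : ∀ t, x 0 ≤ t) (hcof : ∀ t ∈ L, ∃ n, t ≤ x n)
    (R : NERaySpace T) (hR : R.1.1 ≠ L) :
    (∃ n, x n ∈ R.1.1 ∧ x (n + 1) ∉ R.1.1) ∨ ∃ t ∈ Top L, t ∈ R.1.1 := by
  classical
  by_cases h : ∃ m, x m ∉ R.1.1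
  · left
    have h1 := Nat.find_spec h
    have h2 := fun k => Nat.find_min (m := k) h
    obtain ⟨t, ht⟩ := R.2
    have h0 : x 0 ∈ R.1.1 := R.1.2.2.1 (hx0 t) ht
    cases hm : Nat.find h with
    | zero =>
      rw [hm] at h1
      exact absurd h0 h1
    | succ k =>
      refine ⟨k, ?_, ?_⟩
      · by_contra hk
        exact h2 k (by omega) hk
      · rw [← hm]
        exact h1
  · right
    push Not at h
    have hLR : L ⊆ R.1.1 := by
      intro t ht
      obtain ⟨n, hn⟩ := hcof t ht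
      exact R.1.2.2.1 hn (h n)
    obtain ⟨q, hq, hqmin⟩ := WellFounded.wellFounded_iff_has_min.1 hT.wf
      {a | a ∈ R.1.1 ∧ a ∉ L} (by
        by_contra hno
        apply hR
        apply Subset.antisymm _ hLR
        intro a ha
        by_contra haL
        exact hno ⟨a, ha, haL⟩)
    refine ⟨q, ?_, hq.1⟩
    change Iio q = L
    apply Subset.antisymm
    · intro a ha
      by_contra haL
      exact hqmin a ⟨R.1.2.2.1 (le_of_lt ha) hq.1, haL⟩ ha
    · intro a ha
      rcases ray_comparable R.1.2 (hLR ha) hq.1 with h1 | h1 | h1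
      · exact h1
      · exact absurd (h1 ▸ ha) hq.2
      · exact absurd (hL.2.1 h1.le ha) hq.2

theorem tops_eq {L : Set T} {R : NERaySpace T} {t t' : T} (ht : t ∈ Top L) (ht' : t' ∈ Top L)
    (h : t ∈ R.1.1) (h' : t' ∈ R.1.1) : t = t' := by
  have e : Iio t = L := ht
  have e' : Iio t' = L := ht'
  rcases ray_comparable R.1.2 h h' with h1 | h1 | h1
  · have : t ∈ Iio t' := h1
    rw [e', ← e] at this
    exact absurd this (lt_irrefl t)
  · exact h1
  · have : t' ∈ Iio t := h1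
    rw [e, ← e'] at this
    exact absurd this (lt_irrefl t')

/-- Removing one point from a ray space leaves a quasi-ray space. -/
theorem minus_point (hT : IsOrderTree T) (p : NERaySpace T) :
    QuasiRay {x : NERaySpace T // x ≠ p} := by
  classical
  obtain ⟨r, hr⟩ := hT.root
  have hrp : r ∈ p.1.1 := by
    obtain ⟨t, ht⟩ := p.2
    exact p.1.2.2.1 (hr t) ht
  -- an increasing sequence from the root
  have hstep : ∀ s : {s // s ∈ p.1.1}, ∃ t : {s // s ∈ p.1.1}, s.1 < t.1 := by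
    rintro ⟨s, hs⟩
    obtain ⟨t, ht, hst⟩ := p.1.2.2.2 s hs
    exact ⟨⟨t, ht⟩, hst⟩
  choose nx hnx using hstep
  -- windows
  let A : Set (NERaySpace T) := {x | x ≠ p}
  change QuasiRay A
  have hwin : ∀ a b : T, a ≤ b → ¬ b ≤ a → b ∈ p.1.1 →
      QuasiRay (Subtype.val ⁻¹' {x | a ∈ x.1.1 ∧ b ∉ x.1.1} : Set A) := by
    intro a b hab hba hbp
    refine QuasiRay.preimage ?_ ?_
    · rintro x ⟨-, hx⟩ hxp
      exact hx (hxp ▸ hbp)
    · have : {x : NERaySpace T | a ∈ x.1.1 ∧ b ∉ x.1.1} = window a {u | a ≤ u ∧ ¬ b ≤ u} := by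
        ext x
        constructor
        · rintro ⟨h1, h2⟩
          exact ⟨h1, fun u hu hau => ⟨hau, fun hbu => h2 (x.1.2.2.1 hbu hu)⟩⟩
        · rintro ⟨h1, h2⟩
          exact ⟨h1, fun hb => (h2 b hb hab).2 le_rfl⟩
      rw [this]
      refine window_quasi hT ⟨le_rfl, hba⟩ (fun u hu => hu.1) ?_
      rintro u ⟨hu1, hu2⟩ v hav hvu
      exact ⟨hav, fun h => hu2 (h.trans hvu)⟩
  have hwin' : ∀ t : T, t ∉ p.1.1 →
      QuasiRay (Subtype.val ⁻¹' {x | t ∈ x.1.1} : Set A) := by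
    intro t htp
    refine QuasiRay.preimage ?_ ?_
    · intro x hx hxp
      exact htp (hxp ▸ hx)
    · have : {x : NERaySpace T | t ∈ x.1.1} = window t (Ici t) := by
        ext x
        constructor
        · intro h1
          exact ⟨h1, fun u _ htu => htu⟩
        · rintro ⟨h1, -⟩
          exact h1
      rw [this]
      exact window_quasi hT (mem_Ici.2 le_rfl) (fun u hu => hu) (fun u _ v hv _ => hv)
  by_cases hcase : ∃ x : ℕ → T, (∀ n, x n ∈ p.1.1) ∧ x 0 = r ∧ StrictMono x ∧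
      ∀ t ∈ p.1.1, ∃ n, t ≤ x n
  · -- countable cofinality
    obtain ⟨x, hxp, hx0, hmono, hcof⟩ := hcase
    let Y : ULift.{u} ℕ ⊕ {t // t ∈ Top p.1.1} → Set A := fun j =>
      match j with
      | Sum.inl n => Subtype.val ⁻¹' {z | x n.down ∈ z.1.1 ∧ x (n.down + 1) ∉ z.1.1}
      | Sum.inr t => Subtype.val ⁻¹' {z | t.1 ∈ z.1.1}
    refine quasiRay_sum Y ?_ ?_ ?_ ?_
    · rintro (n | t)
      · exact ((isClopen_ne_cone _).isOpen.inter (isClopen_ne_cone _).compl.isOpen).preimage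
          continuous_subtype_val
      · exact (isOpen_ne_cone _).preimage continuous_subtype_val
    · rintro (n | t) (m | t') z hz hz'
      · have key : ∀ n m : ℕ, x (n + 1) ∉ z.1.1.1 → x m ∈ z.1.1.1 → m ≤ n := by
          intro n m h1 h2
          by_contra hnm
          exact h1 (z.1.1.2.2.1 (hmono.monotone (show n + 1 ≤ m by omega)) h2)
        have h1 := key n.down m.down hz.2 hz'.1
        have h2 := key m.down n.down hz'.2 hz.1
        congr 1
        exact ULift.ext _ _ (le_antisymm h2 h1)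
      · exfalso
        have e : Iio t'.1 = p.1.1 := t'.2
        have h1 : x (n.down + 1) < t'.1 := by
          have := hxp (n.down + 1)
          rw [← e] at this
          exact this
        exact hz.2 (z.1.1.2.2.1 h1.le hz')
      · exfalso
        have e : Iio t.1 = p.1.1 := t.2
        have h1 : x (m.down + 1) < t.1 := by
          have := hxp (m.down + 1)
          rw [← e] at this
          exact this
        exact hz'.2 (z.1.1.2.2.1 h1.le hz)
      · congr 1
        exact Subtype.ext (tops_eq t.2 t'.2 hz hz')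
    · rintro ⟨z, hz⟩
      have hz' : z.1.1 ≠ p.1.1 := fun h => hz (Subtype.ext (Subtype.ext h))
      rcases ladder_cover hT p.1.2 hxp (fun t => hx0 ▸ hr t) hcof z hz' with
        ⟨n, hn⟩ | ⟨t, ht, htz⟩
      · exact ⟨Sum.inl ⟨n⟩, hn⟩
      · exact ⟨Sum.inr ⟨t, ht⟩, htz⟩
    · rintro (n | t)
      · exact hwin _ _ (hmono.monotone (Nat.le_succ _))
          (not_le_of_gt (hmono (Nat.lt_succ_self _))) (hxp _)
      · refine hwin' _ ?_
        have e : Iio t.1 = p.1.1 := t.2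
        intro htp
        exact lt_irrefl t.1 ((Set.ext_iff.1 e t.1).2 htp)
  · -- uncountable cofinality
    obtain ⟨x, hxp, hmono, hx0⟩ : ∃ x : ℕ → T, (∀ n, x n ∈ p.1.1) ∧ StrictMono x ∧ x 0 = r := by
      let xs : ℕ → {s // s ∈ p.1.1} := fun n => Nat.rec ⟨r, hrp⟩ (fun _ s => nx s) n
      exact ⟨fun n => (xs n).1, fun n => (xs n).2, strictMono_nat_of_lt_succ fun n => hnx (xs n),
        rfl⟩
    have hub : ∃ t ∈ p.1.1, ∀ n, ¬ t ≤ x n := by
      by_contra hno
      push Not at hno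
      exact hcase ⟨x, hxp, hx0, hmono, hno⟩
    obtain ⟨y, ⟨hyp, hy⟩, hymin⟩ := WellFounded.wellFounded_iff_has_min.1 hT.wf
      {t | t ∈ p.1.1 ∧ ∀ n, ¬ t ≤ x n} hub
    have hxy : ∀ n, x n < y := by
      intro n
      rcases ray_comparable p.1.2 (hxp n) hyp with h | h | h
      · exact h
      · exact absurd h.ge (hy n)
      · exact absurd h.le (hy n)
    let L : Set T := Iio y
    have hLp : ∀ t ∈ L, t ∈ p.1.1 := fun t ht => p.1.2.2.1 (le_of_lt ht) hyp
    have hcof : ∀ t ∈ L, ∃ n, t ≤ x n := by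
      intro t ht
      by_contra hno
      push Not at hno
      exact hymin t ⟨hLp t ht, hno⟩ ht
    have hL : IsRay L := by
      refine ⟨?_, ?_, ?_⟩
      · intro a ha b hb _
        exact p.1.2.1.total (hLp a ha) (hLp b hb)
      · intro a b hba ha
        exact lt_of_le_of_lt hba ha
      · intro a ha
        obtain ⟨n, hn⟩ := hcof a ha
        exact ⟨x (n + 1), hxy _, lt_of_le_of_lt hn (hmono (Nat.lt_succ_self n))⟩
    have hyL : y ∈ Top L := rfl
    let l : NERaySpace T := ⟨⟨L, hL⟩, ⟨x 0, hxy 0⟩⟩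
    have hlp : l ≠ p := by
      intro h
      have : y ∈ l.1.1 := by
        rw [h]
        exact hyp
      exact lt_irrefl y this
    let S₁ : Set T := Ici y
    have hS₁ : ∀ u ∈ S₁, y ≤ u := fun u hu => hu
    have hconv : ∀ u ∈ S₁, ∀ v, y ≤ v → v ≤ u → v ∈ S₁ := fun _ _ v hv _ => hv
    have hwy : ∀ z : NERaySpace T, y ∈ z.1.1 → z ∈ window y S₁ := fun z hz =>
      ⟨hz, fun u _ hu => hu⟩
    have htree : IsOrderTree S₁ := piece_tree hT (mem_Ici.2 le_rfl) hS₁
    let P : Set S₁ := {u | u.1 ∈ p.1.1}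
    have hP : IsRay P := trace_ray (hwy p hyp) hS₁
    let Y : ULift.{u} ℕ ⊕ {t // t ∈ Top L ∧ t ≠ y} → Set A := fun j =>
      match j with
      | Sum.inl n => Subtype.val ⁻¹' {z | x n.down ∈ z.1.1 ∧ x (n.down + 1) ∉ z.1.1}
      | Sum.inr t => Subtype.val ⁻¹' {z | t.1 ∈ z.1.1}
    have hYy : ∀ j, ∀ z ∈ Y j, y ∉ z.1.1.1 := by
      rintro (n | t) z hz hyz
      · exact hz.2 (z.1.1.2.2.1 (hxy _).le hyz)
      · exact t.2.2 (tops_eq t.2.1 hyL hz hyz)
    have hrest : ∀ z : A, (∀ j, z ∉ Y j) → y ∈ z.1.1.1 ∨ z.1 = l := by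
      intro z hz
      by_cases h : z.1.1.1 = L
      · right
        exact Subtype.ext (Subtype.ext h)
      · left
        rcases ladder_cover hT hL (x := x) hxy (fun t => hx0 ▸ hr t) hcof z.1 h with
          ⟨n, hn⟩ | ⟨t, ht, htz⟩
        · exact absurd hn (hz (Sum.inl ⟨n⟩))
        · by_cases hty : t = y
          · exact hty ▸ htz
          · exact absurd htz (hz (Sum.inr ⟨t, ht, hty⟩))
    have hyl : y ∉ l.1.1 := fun h => lt_irrefl y h
    refine attach (X := A) htree (P := P) hP.1 hP.2.1 ⟨⟨y, le_rfl⟩, hyp⟩ Y ?_ ?_ ?_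
      (fun u => {z | (y ∈ z.1.1.1 ∧ u.1 ∈ z.1.1.1) ∨ (y ∉ z.1.1.1 ∧ u.1 ∈ p.1.1)}) ?_ ?_ ?_ ?_ ?_
    · rintro (n | t)
      · exact ((isClopen_ne_cone _).inter (isClopen_ne_cone _).compl).preimage
          continuous_subtype_val
      · exact (isClopen_ne_cone _).preimage continuous_subtype_val
    · rintro (n | t) (m | t') z hz hz'
      · have key : ∀ n m : ℕ, x (n + 1) ∉ z.1.1.1 → x m ∈ z.1.1.1 → m ≤ n := by
          intro n m h1 h2
          by_contra hnm
          exact h1 (z.1.1.2.2.1 (hmono.monotone (show n + 1 ≤ m by omega)) h2)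
        have h1 := key n.down m.down hz.2 hz'.1
        have h2 := key m.down n.down hz'.2 hz.1
        congr 1
        exact ULift.ext _ _ (le_antisymm h2 h1)
      · exfalso
        have e : Iio t'.1 = L := t'.2.1
        have h1 : x (n.down + 1) < t'.1 := by
          have : x (n.down + 1) ∈ L := hxy _
          rw [← e] at this
          exact this
        exact hz.2 (z.1.1.2.2.1 h1.le hz')
      · exfalso
        have e : Iio t.1 = L := t.2.1
        have h1 : x (m.down + 1) < t.1 := by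
          have : x (m.down + 1) ∈ L := hxy _
          rw [← e] at this
          exact this
        exact hz'.2 (z.1.1.2.2.1 h1.le hz)
      · congr 1
        exact Subtype.ext (tops_eq t.2.1 t'.2.1 hz hz')
    · rintro (n | t)
      · exact hwin _ _ (hmono.monotone (Nat.le_succ _))
          (not_le_of_gt (hmono (Nat.lt_succ_self _))) (hxp _)
      · refine hwin' _ ?_
        intro htp
        exact t.2.2 (tops_eq t.2.1 hyL htp hyp)
    · intro u
      have h1 : IsClopen {z : A | y ∈ z.1.1.1} :=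
        (isClopen_ne_cone y).preimage continuous_subtype_val
      have h2 : IsClopen {z : A | u.1 ∈ z.1.1.1} :=
        (isClopen_ne_cone u.1).preimage continuous_subtype_val
      by_cases hu : u.1 ∈ p.1.1
      · have : {z : A | (y ∈ z.1.1.1 ∧ u.1 ∈ z.1.1.1) ∨ (y ∉ z.1.1.1 ∧ u.1 ∈ p.1.1)} =
            ({z : A | y ∈ z.1.1.1} ∩ {z : A | u.1 ∈ z.1.1.1}) ∪ {z : A | y ∈ z.1.1.1}ᶜ := by
          ext z
          simp [hu]
        rw [this]
        exact (h1.inter h2).union h1.compl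
      · have : {z : A | (y ∈ z.1.1.1 ∧ u.1 ∈ z.1.1.1) ∨ (y ∉ z.1.1.1 ∧ u.1 ∈ p.1.1)} =
            ({z : A | y ∈ z.1.1.1} ∩ {z : A | u.1 ∈ z.1.1.1}) := by
          ext z
          simp [hu]
        rw [this]
        exact h1.inter h2
    · intro j z hz u
      have hyz := hYy j z hz
      constructor
      · rintro (h | h)
        · exact absurd h.1 hyz
        · exact h.2
      · intro h
        exact Or.inr ⟨hyz, h⟩
    · intro z hz
      rcases hrest z hz with h | h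
      · have e : {u : S₁ | z ∈ {z : A | (y ∈ z.1.1.1 ∧ u.1 ∈ z.1.1.1) ∨
            (y ∉ z.1.1.1 ∧ u.1 ∈ p.1.1)}} = {u : S₁ | u.1 ∈ z.1.1.1} := by
          ext u
          simp [h]
        rw [e]
        exact ⟨trace_ray (hwy z.1 h) hS₁, ⟨⟨y, le_rfl⟩, h⟩⟩
      · have hy' : y ∉ z.1.1.1 := by
          rw [h]
          exact hyl
        have e : {u : S₁ | z ∈ {z : A | (y ∈ z.1.1.1 ∧ u.1 ∈ z.1.1.1) ∨
            (y ∉ z.1.1.1 ∧ u.1 ∈ p.1.1)}} = P := by
          ext u
          simp [hy', P]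
        rw [e]
        exact ⟨hP, ⟨⟨y, le_rfl⟩, hyp⟩⟩
    · intro z z' hz hz' hzz
      have hzz' : ∀ u : S₁, ((y ∈ z.1.1.1 ∧ u.1 ∈ z.1.1.1) ∨ (y ∉ z.1.1.1 ∧ u.1 ∈ p.1.1)) ↔
          ((y ∈ z'.1.1.1 ∧ u.1 ∈ z'.1.1.1) ∨ (y ∉ z'.1.1.1 ∧ u.1 ∈ p.1.1)) := hzz
      have key : ∀ z z' : A, y ∈ z.1.1.1 → z'.1 = l →
          (∀ u : S₁, ((y ∈ z.1.1.1 ∧ u.1 ∈ z.1.1.1) ∨ (y ∉ z.1.1.1 ∧ u.1 ∈ p.1.1)) ↔
          ((y ∈ z'.1.1.1 ∧ u.1 ∈ z'.1.1.1) ∨ (y ∉ z'.1.1.1 ∧ u.1 ∈ p.1.1))) → False := by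
        intro z z' h h' hzz
        have hy' : y ∉ z'.1.1.1 := by
          rw [h']
          exact hyl
        apply z.2
        refine window_inj (hwy z.1 h) (hwy p hyp) fun u => ?_
        have := hzz u
        simp only [h, hy', true_and, not_true_eq_false, false_and, or_false, not_false_eq_true,
          false_or] at this
        exact this
      rcases hrest z hz with h | h
      · rcases hrest z' hz' with h' | h'
        · apply Subtype.ext
          refine window_inj (hwy z.1 h) (hwy z'.1 h') fun u => ?_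
          have := hzz' u
          simp only [h, h', true_and, not_true_eq_false, false_and, or_false] at this
          exact this
        · exact absurd (key z z' h h' hzz') id
      · rcases hrest z' hz' with h' | h'
        · exact absurd (key z' z h' h fun u => (hzz' u).symm) id
        · exact Subtype.ext (h.trans h'.symm)
    · intro R hR hne
      obtain ⟨q, hq, hqR⟩ := down_ray hT hS₁ hconv hR hne
      by_cases hqp : q = p
      · refine ⟨⟨l, hlp⟩, ?_, ?_⟩
        · rintro (n | t) hz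
          · exact hz.2 (hxy _)
          · have e : Iio t.1 = L := t.2.1
            have h1 : t.1 ∈ L := hz
            exact lt_irrefl t.1 ((Set.ext_iff.1 e t.1).2 h1)
        · intro u
          rw [← hqR u, hqp]
          constructor
          · rintro (h | h)
            · exact absurd h.1 hyl
            · exact h.2
          · intro h
            exact Or.inr ⟨hyl, h⟩
      · refine ⟨⟨q, hqp⟩, ?_, ?_⟩
        · intro j hj
          exact hYy j _ hj hq.1
        · intro u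
          rw [← hqR u]
          constructor
          · rintro (h | h)
            · exact h.2
            · exact absurd hq.1 h.1
          · intro h
            exact Or.inl ⟨hq.1, h⟩

/-- A window minus at most one point is quasi-ray. -/
theorem window_minus (hT : IsOrderTree T) {s : T} {S : Set T} (hs : s ∈ S)
    (hS : ∀ u ∈ S, s ≤ u) (hconv : ∀ u ∈ S, ∀ v, s ≤ v → v ≤ u → v ∈ S)
    {B : Set (NERaySpace T)} (hB : B ⊆ window s S)
    (hB' : ∀ x ∈ window s S, ∀ y ∈ window s S, x ∉ B → y ∉ B → x = y) : QuasiRay B := by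
  by_cases h : window s S ⊆ B
  · rw [Subset.antisymm hB h]
    exact window_quasi hT hs hS hconv
  · obtain ⟨p, hp, hpB⟩ := not_subset.1 h
    obtain ⟨f, hf, hfb, hfm⟩ := (window_cones hT hs hS hconv).exists_map
    have hm := minus_point (piece_tree hT hs hS) (f ⟨p, hp⟩)
    have hne : ∀ z : B, f ⟨z.1, hB z.2⟩ ≠ f ⟨p, hp⟩ := by
      intro z hz
      have h1 : z.1 = p := congrArg Subtype.val (hfb.1 hz)
      exact hpB (h1 ▸ z.2)
    refine QuasiRay.of_bij (f := fun z : B => (⟨f ⟨z.1, hB z.2⟩, hne z⟩ :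
      {x : NERaySpace S // x ≠ f ⟨p, hp⟩})) ?_ ⟨?_, ?_⟩ hm
    · exact (hf.comp (continuous_subtype_val.subtype_mk _)).subtype_mk _
    · intro a b hab
      have h0 : f ⟨a.1, hB a.2⟩ = f ⟨b.1, hB b.2⟩ := congrArg Subtype.val hab
      have h1 : a.1 = b.1 := congrArg (fun w : window s S => w.1) (hfb.1 h0)
      exact Subtype.ext h1
    · rintro ⟨y, hy⟩
      obtain ⟨⟨z, hz⟩, rfl⟩ := hfb.2 y
      have hzB : z ∈ B := by
        by_contra hzB
        apply hy
        have : z = p := hB' z hz p hp hzB hpB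
        subst this
        rfl
      exact ⟨⟨z, hzB⟩, rfl⟩

/-- **Open subspaces of ray spaces are quasi-ray spaces.** -/
theorem open_quasi (hT : IsOrderTree T) {O : Set (NERaySpace T)} (hO : IsOpen O) :
    QuasiRay O := by
  classical
  obtain ⟨O', hO', hOO'⟩ := isOpen_induced_iff.1 hO
  -- the tree of the complement
  let TF : Set T := {t | ∃ Q : NERaySpace T, Q ∉ O ∧ t ∈ Q.1.1}
  have hTFl : ∀ a b, b ≤ a → a ∈ TF → b ∈ TF := by
    rintro a b hba ⟨Q, hQ, ha⟩
    exact ⟨Q, hQ, Q.1.2.2.1 hba ha⟩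
  let M : NERaySpace T → T → Prop := fun x s =>
    ∀ Q : NERaySpace T, Q ∉ O → s ∈ Q.1.1 → ∀ z ∈ x.1.1, z ∈ TF → z ∈ Q.1.1
  -- basic neighbourhoods at points of `O`
  have hnb : ∀ x ∈ O, ∃ t ∈ x.1.1, ∃ E : Finset T, (∀ e ∈ E, e ∈ Top x.1.1) ∧
      ∀ y : NERaySpace T, t ∈ y.1.1 → (∀ e ∈ E, e ∉ y.1.1) → y ∈ O := by
    intro x hx
    rw [← hOO'] at hx
    obtain ⟨t, ht, E, hE, h⟩ := exists_nb hT hO' hx x.2
    refine ⟨t, ht, E, hE, fun y hy1 hy2 => ?_⟩
    rw [← hOO']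
    exact h ⟨hy1, hy2⟩
  have hM : ∀ x ∈ O, ∃ s ∈ x.1.1, M x s := by
    intro x hx
    by_cases hxT : ∃ z ∈ x.1.1, z ∉ TF
    · obtain ⟨z, hz, hzT⟩ := hxT
      exact ⟨z, hz, fun Q hQ hzQ => absurd ⟨Q, hQ, hzQ⟩ hzT⟩
    · push Not at hxT
      obtain ⟨t, ht, E, hE, h⟩ := hnb x hx
      refine ⟨t, ht, fun Q hQ htQ z hz _ => ?_⟩
      have : ∃ e ∈ E, e ∈ Q.1.1 := by
        by_contra hno
        push Not at hno
        exact hQ (h Q htQ hno)
      obtain ⟨e, he, heQ⟩ := this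
      have e1 : Iio e = x.1.1 := hE e he
      have : z ∈ Iio e := by
        rw [e1]
        exact hz
      exact Q.1.2.2.1 (le_of_lt this) heQ
  -- the least element of `M x`
  have hmin : ∀ x : O, ∃ s ∈ x.1.1.1, M x.1 s ∧ ∀ s' ∈ x.1.1.1, s' < s → ¬ M x.1 s' := by
    rintro ⟨x, hx⟩
    obtain ⟨s, hs, hsmin⟩ := WellFounded.wellFounded_iff_has_min.1 hT.wf
      {s | s ∈ x.1.1 ∧ M x s} (hM x hx)
    exact ⟨s, hs.1, hs.2, fun s' hs' hlt hMs => hsmin s' ⟨hs', hMs⟩ hlt⟩
  choose io hio1 hio2 hio3 using hmin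
  let Y : {s // s ∈ range io} → Set O := fun s => {x | s.1 ∈ x.1.1.1 ∧ M x.1 s.1}
  have huniq : ∀ (s : {s // s ∈ range io}) (x : O), x ∈ Y s → s.1 = io x := by
    rintro ⟨_, x', rfl⟩ x hx
    obtain ⟨h1, h2⟩ := hx
    have h1' : io x' ∈ x.1.1.1 := h1
    have h2' : M x.1 (io x') := h2
    change io x' = io x
    rcases ray_comparable x.1.1.2 h1' (hio1 x) with h | h | h
    · exact absurd h2' (hio3 x _ h1' h)
    · exact h
    · -- `io x < io x'`
      exfalso
      have h3 : io x ∈ x'.1.1.1 := x'.1.1.2.2.1 h.le (hio1 x')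
      refine hio3 x' _ h3 h ?_
      intro Q hQ hioQ z hz hzT
      by_cases hsT : io x' ∈ TF
      · have h4 : io x' ∈ Q.1.1 := hio2 x Q hQ hioQ _ h1' hsT
        exact hio2 x' Q hQ h4 z hz hzT
      · -- the parts of both rays in `TF` agree
        have h5 : z ∈ x.1.1.1 := by
          rcases ray_comparable x'.1.1.2 hz (hio1 x') with h6 | h6 | h6
          · exact x.1.1.2.2.1 h6.le h1'
          · rw [h6]
            exact h1'
          · exact absurd (hTFl _ _ h6.le hzT) hsT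
        exact hio2 x Q hQ hioQ z h5 hzT
  refine quasiRay_sum Y ?_ ?_ ?_ ?_
  · -- open
    intro s
    rw [isOpen_iff_mem_nhds]
    rintro ⟨x, hx⟩ ⟨hsx, hMx⟩
    by_cases hxT : ∃ z ∈ x.1.1, z ∉ TF
    · obtain ⟨z, hz, hzT⟩ := hxT
      obtain ⟨c, hc, hzc, hsc⟩ := ray_exists_ge x.1.2 hz hsx
      have hcT : c ∉ TF := fun h => hzT (hTFl _ _ hzc h)
      have hop : IsOpen {y : O | c ∈ y.1.1.1} := (isOpen_ne_cone c).preimage continuous_subtype_val
      refine Filter.mem_of_superset (hop.mem_nhds hc) ?_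
      intro y hy
      refine ⟨y.1.1.2.2.1 hsc hy, ?_⟩
      intro Q hQ hsQ w hw hwT
      have hwx : w ∈ x.1.1 := by
        rcases ray_comparable y.1.1.2 hw hy with h6 | h6 | h6
        · exact x.1.2.2.1 h6.le hc
        · rw [h6]
          exact hc
        · exact absurd (hTFl _ _ h6.le hwT) hcT
      exact hMx Q hQ hsQ w hwx hwT
    · push Not at hxT
      obtain ⟨t, ht, E, hE, h⟩ := hnb x hx
      obtain ⟨c, hc, htc, hsc⟩ := ray_exists_ge x.1.2 ht hsx
      have hop : IsOpen {y : O | c ∈ y.1.1.1 ∧ ∀ e ∈ E, e ∉ y.1.1.1} := by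
        have : {y : O | c ∈ y.1.1.1 ∧ ∀ e ∈ E, e ∉ y.1.1.1} =
            (fun y : O => y.1.1) ⁻¹' nb c E := rfl
        rw [this]
        exact (isOpen_nb c E).preimage (continuous_subtype_val.comp continuous_subtype_val)
      have hxe : ∀ e ∈ E, e ∉ x.1.1 := by
        intro e he hex
        have e1 : Iio e = x.1.1 := hE e he
        rw [← e1] at hex
        exact lt_irrefl e hex
      refine Filter.mem_of_superset (hop.mem_nhds ⟨hc, hxe⟩) ?_
      rintro y ⟨hcy, hyE⟩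
      refine ⟨y.1.1.2.2.1 hsc hcy, ?_⟩
      intro Q hQ hsQ w hw hwT
      have hwx : w ∈ x.1.1 := by
        rcases ray_comparable y.1.1.2 hw hcy with h6 | h6 | h6
        · exact x.1.2.2.1 h6.le hc
        · rw [h6]
          exact hc
        · obtain ⟨Q', hQ', hwQ'⟩ := hwT
          have htQ' : t ∈ Q'.1.1 := Q'.1.2.2.1 (htc.trans h6.le) hwQ'
          have : ∃ e ∈ E, e ∈ Q'.1.1 := by
            by_contra hno
            push Not at hno
            exact hQ' (h Q' htQ' hno)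
          obtain ⟨e, he, heQ'⟩ := this
          have e1 : Iio e = x.1.1 := hE e he
          rw [← e1]
          rcases ray_comparable Q'.1.2 hwQ' heQ' with h7 | h7 | h7
          · exact h7
          · exact absurd (h7 ▸ hw) (hyE e he)
          · exact absurd (y.1.1.2.2.1 h7.le hw) (hyE e he)
      exact hMx Q hQ hsQ w hwx hwT
  · intro s s' x hx hx'
    exact Subtype.ext ((huniq s x hx).trans (huniq s' x hx').symm)
  · intro x
    exact ⟨⟨io x, mem_range_self x⟩, hio1 x, hio2 x⟩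
  · intro s
    let S : Set T := {u | s.1 ≤ u ∧ ∀ v ≤ u, v ∈ TF →
      ∀ Q : NERaySpace T, Q ∉ O → s.1 ∈ Q.1.1 → v ∈ Q.1.1}
    have hsS : s.1 ∈ S := ⟨le_rfl, fun v hv _ Q _ hsQ => Q.1.2.2.1 hv hsQ⟩
    have hconv : ∀ u ∈ S, ∀ v, s.1 ≤ v → v ≤ u → v ∈ S := by
      rintro u ⟨_, hu⟩ v hsv hvu
      exact ⟨hsv, fun w hw => hu w (hw.trans hvu)⟩
    let B : Set (NERaySpace T) := {x | x ∈ O ∧ s.1 ∈ x.1.1 ∧ M x s.1}
    have hBw : B ⊆ window s.1 S := by
      rintro x ⟨_, hsx, hMx⟩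
      refine ⟨hsx, fun u hu hsu => ⟨hsu, fun v hvu hvT Q hQ hsQ => ?_⟩⟩
      exact hMx Q hQ hsQ v (x.1.2.2.1 hvu hu) hvT
    have hwM : ∀ x ∈ window s.1 S, M x s.1 := by
      intro x hx Q hQ hsQ z hz hzT
      rcases ray_comparable x.1.2 hz hx.1 with h | h | h
      · exact Q.1.2.2.1 h.le hsQ
      · rw [h]
        exact hsQ
      · exact (hx.2 z hz h.le).2 z le_rfl hzT Q hQ hsQ
    have hB : QuasiRay B := by
      refine window_minus hT hsS (fun u hu => hu.1) hconv hBw ?_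
      have key : ∀ x ∈ window s.1 S, ∀ y ∈ window s.1 S, x ∉ B → y ∉ B →
          ∀ z, z ∈ x.1.1 → z ∈ y.1.1 := by
        intro x hx y hy hxB hyB z hz
        have hxO : x ∉ O := fun h => hxB ⟨h, hx.1, hwM x hx⟩
        have hyO : y ∉ O := fun h => hyB ⟨h, hy.1, hwM y hy⟩
        exact hwM x hx y hyO hy.1 z hz ⟨x, hxO, hz⟩
      intro x hx y hy hxB hyB
      exact ne_ext fun z => ⟨key x hx y hy hxB hyB z, key y hy x hx hyB hxB z⟩
    have hBO : B ⊆ O := fun x hx => hx.1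
    have := QuasiRay.preimage hBO hB
    have e : (Subtype.val ⁻¹' B : Set O) = Y s := by
      ext x
      exact ⟨fun h => h.2, fun h => ⟨x.2, h⟩⟩
    rw [← e]
    exact this

end Pool.Agent.Q179.Ray
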